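import Pool.Agent.Helper771.LieHomogNilp
import Pool.Agent.R619.Isotypic

/-!
# The varieties of nilpotent Lie algebras are logically perfect and logically regular

Homogeneity of the free nilpotent Lie algebras is a starting result (Helper771); here the answer to
both questions is assembled: perfectness and regularity for every field and every class.
-/

set_option autoImplicit false

namespace Pool.Agent.Results.MP_8011ed_lc.PerfectAndRegular

open FirstOrder Pool.Agent.Helper771.LieHomog Pool.Agent.R619.Iso

universe u v

/-- `Θ_{P,n}` is logically perfect: every free algebra `L_r / γ_{n+1}(L_r)` of finite rank `r` of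
the variety of Lie algebras over `P` of class at most `n` is logically homogeneous. -/
def LogicallyPerfect (P : Type u) [Field P] (n : ℕ) : Prop :=
  ∀ r : ℕ, LogicallyHomogeneous P (FreeNilpLie P r n)

/-- `Θ_{P,n}` is logically regular: a Lie algebra `H` over `P` of class at most `n` which realizes
the same types of `k`-tuples as the free algebra `L_r / γ_{n+1}(L_r)`, for every `k ≥ 1`, is
isomorphic to it. -/
def LogicallyRegular (P : Type u) [Field P] (n : ℕ) : Prop :=
  ∀ (r : ℕ) (H : Type v) [LieRing H] [LieAlgebra P H],
    LieModule.lowerCentralSeries P H H n = ⊥ →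
    Isotypic (lieLang P) (FreeNilpLie P r n) H → Nonempty (FreeNilpLie P r n ≃ₗ⁅P⁆ H)

instance lieLang_isAlgebraic (P : Type u) : (lieLang P).IsAlgebraic :=
  fun _ => inferInstanceAs (IsEmpty Empty)

theorem homog (P : Type u) [Field P] (n : ℕ) (hn : 1 ≤ n) (r : ℕ) :
    LogicallyHomogeneous P (FreeNilpLie P r n) := by
  rcases Nat.eq_zero_or_pos r with rfl | hr
  · have h0 : ∀ z : FreeNilpLie P 0 n, z = 0 := by
      intro z
      have hz : z ∈ LieSubalgebra.lieSpan P (FreeNilpLie P 0 n) (Set.range (gx P 0 n)) := by
        rw [nilp_gen]; trivial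
      have e : Set.range (gx P 0 n) = ∅ := Set.range_eq_empty _
      rw [e, LieSubalgebra.span_empty] at hz
      exact hz
    intro m _ μ ν _
    exact ⟨LieEquiv.refl, fun i => by rw [h0 (ν i)]; exact h0 _⟩
  · exact nilpotent_homogeneous P r n hr hn

/-- For every field `P` and every `n ≥ 1` the variety `Θ_{P,n}` is logically perfect and logically
regular. -/
theorem result (P : Type u) [Field P] (n : ℕ) (hn : 1 ≤ n) :
    LogicallyPerfect P n ∧ LogicallyRegular.{u, v} P n := by
  refine ⟨homog P n hn, ?_⟩
  intro r H _ _ _ iso
  have hh := homog P n hn r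
  have gen : ∀ w : FreeNilpLie P r n, ∃ t : (lieLang P).Term (Fin (r + 1)),
      t.realize (Fin.snoc (gx P r n) 0 : Fin (r + 1) → FreeNilpLie P r n) = w := by
    intro w
    obtain ⟨t, rfl⟩ := exists_term (nilp_gen P r n) w
    refine ⟨t.relabel Fin.castSucc, ?_⟩
    rw [Language.Term.realize_relabel]
    congr 1
    funext i
    simp
  obtain ⟨f, hf, b, hb⟩ := exists_bij (L := lieLang P) (H := H) (by omega) _ gen (by
    intro ν hν w
    obtain ⟨σ, hi⟩ := hh (r + 1) (by omega) _ ν hν
    obtain ⟨w', rfl⟩ := σ.surjective w
    obtain ⟨t, rfl⟩ := gen w'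
    refine ⟨t, ?_⟩
    have h1 := map_realize (σ : FreeNilpLie P r n →ₗ⁅P⁆ FreeNilpLie P r n)
      (Fin.snoc (gx P r n) 0 : Fin (r + 1) → FreeNilpLie P r n) t
    refine Eq.trans ?_ h1.symm
    congr 1
    funext i
    exact (hi i).symm) iso
  choose T hT using gen
  let g : FreeNilpLie P r n →ₗ⁅P⁆ H :=
    { toFun := f
      map_smul' := by
        intro c a
        have h := hb (Language.Term.func (l := 1) (LieFn.smul c : LieFn P 1) ![T a])
        have h1 := hb (T a)
        rw [hT] at h1
        have e1 : (Language.Term.func (l := 1) (LieFn.smul c : LieFn P 1) ![T a] :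
            (lieLang P).Term (Fin (r + 1))).realize
              (Fin.snoc (gx P r n) 0 : Fin (r + 1) → FreeNilpLie P r n) =
              c • (T a).realize (Fin.snoc (gx P r n) 0 : Fin (r + 1) → FreeNilpLie P r n) := rfl
        have e2 : (Language.Term.func (l := 1) (LieFn.smul c : LieFn P 1) ![T a] :
            (lieLang P).Term (Fin (r + 1))).realize b = c • (T a).realize b := rfl
        rw [e1, e2, hT, ← h1] at h
        exact h
      map_add' := by
        intro a a'
        have h := hb (Language.Term.func (l := 2) (LieFn.add : LieFn P 2) ![T a, T a'])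
        have h1 := hb (T a)
        have h2 := hb (T a')
        rw [hT] at h1 h2
        have e1 : (Language.Term.func (l := 2) (LieFn.add : LieFn P 2) ![T a, T a'] :
            (lieLang P).Term (Fin (r + 1))).realize
              (Fin.snoc (gx P r n) 0 : Fin (r + 1) → FreeNilpLie P r n) =
              (T a).realize (Fin.snoc (gx P r n) 0 : Fin (r + 1) → FreeNilpLie P r n) +
              (T a').realize (Fin.snoc (gx P r n) 0 : Fin (r + 1) → FreeNilpLie P r n) := rfl
        have e2 : (Language.Term.func (l := 2) (LieFn.add : LieFn P 2) ![T a, T a'] :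
            (lieLang P).Term (Fin (r + 1))).realize b =
              (T a).realize b + (T a').realize b := rfl
        rw [e1, e2, hT, hT, ← h1, ← h2] at h
        exact h
      map_lie' := by
        intro a a'
        have h := hb (Language.Term.func (l := 2) (LieFn.bracket : LieFn P 2) ![T a, T a'])
        have h1 := hb (T a)
        have h2 := hb (T a')
        rw [hT] at h1 h2
        have e1 : (Language.Term.func (l := 2) (LieFn.bracket : LieFn P 2) ![T a, T a'] :
            (lieLang P).Term (Fin (r + 1))).realize
              (Fin.snoc (gx P r n) 0 : Fin (r + 1) → FreeNilpLie P r n) =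
              ⁅(T a).realize (Fin.snoc (gx P r n) 0 : Fin (r + 1) → FreeNilpLie P r n),
              (T a').realize (Fin.snoc (gx P r n) 0 : Fin (r + 1) → FreeNilpLie P r n)⁆ := rfl
        have e2 : (Language.Term.func (l := 2) (LieFn.bracket : LieFn P 2) ![T a, T a'] :
            (lieLang P).Term (Fin (r + 1))).realize b =
              ⁅(T a).realize b, (T a').realize b⁆ := rfl
        rw [e1, e2, hT, hT, ← h1, ← h2] at h
        exact h }
  exact ⟨LieEquiv.ofBijective g hf⟩

end Pool.Agent.Results.MP_8011ed_lc.PerfectAndRegular
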